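import Pool.Agent.H52.HMS.LBase

/-!
# HMS box 1, module LMAC: one round of the reduction
-/

set_option autoImplicit false

namespace Pool.HMS

open TMLib Finset

/-- Leading products before and after an exchange. -/
theorem lmac_prod (D k : ℕ) (r r' : ℕ → ℚ) (hk : k + 1 < D)
    (hp : r' k * r' (k + 1) = r k * r (k + 1))
    (he : ∀ l < D, l ≠ k → l ≠ k + 1 → r' l = r l) (j : ℕ) (hj : j < D) (hjk : j ≠ k) :
    ∏ l ∈ range (j + 1), r' l = ∏ l ∈ range (j + 1), r l := by
  rcases Nat.lt_or_gt_of_ne hjk with h | h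
  · refine Finset.prod_congr rfl fun l hl => ?_
    have := Finset.mem_range.1 hl
    exact he l (by omega) (by omega) (by omega)
  · have h0 : ∏ l ∈ range k, r' l = ∏ l ∈ range k, r l := by
      refine Finset.prod_congr rfl fun l hl => ?_
      have := Finset.mem_range.1 hl
      exact he l (by omega) (by omega) (by omega)
    have h1 : ∏ l ∈ range (k + 1 + 1), r' l = ∏ l ∈ range (k + 1 + 1), r l := by
      rw [Finset.prod_range_succ, Finset.prod_range_succ, Finset.prod_range_succ,
        Finset.prod_range_succ, h0, mul_assoc, mul_assoc, hp]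
    have h2 : ∀ j, k + 1 ≤ j → j < D →
        ∏ l ∈ range (j + 1), r' l = ∏ l ∈ range (j + 1), r l := by
      intro j hj
      induction j, hj using Nat.le_induction with
      | base => intro _; exact h1
      | succ j hj ih =>
        intro hjD
        rw [Finset.prod_range_succ, ih (by omega), he (j + 1) hjD (by omega) (by omega),
          ← Finset.prod_range_succ]
    exact h2 j (by omega) hj

/-- Potentials before and after an exchange. -/
theorem lmac_pot (D k : ℕ) (r r' : ℕ → ℚ) (hk : k + 1 < D) (hpos : ∀ l < D, 0 < r l)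
    (hp : r' k * r' (k + 1) = r k * r (k + 1))
    (he : ∀ l < D, l ≠ k → l ≠ k + 1 → r' l = r l) (hr : r' k ≤ 3 / 4 * r k) :
    ∏ j ∈ range D, ∏ l ∈ range (j + 1), r' l ≤
      3 / 4 * ∏ j ∈ range D, ∏ l ∈ range (j + 1), r l := by
  have hkm : k ∈ range D := Finset.mem_range.2 (by omega)
  rw [← Finset.mul_prod_erase (range D) (fun j => ∏ l ∈ range (j + 1), r' l) hkm,
    ← Finset.mul_prod_erase (range D) (fun j => ∏ l ∈ range (j + 1), r l) hkm]
  have h0 : ∏ l ∈ range k, r' l = ∏ l ∈ range k, r l := by
    refine Finset.prod_congr rfl fun l hl => ?_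
    have := Finset.mem_range.1 hl
    exact he l (by omega) (by omega) (by omega)
  have h1 : ∏ j ∈ (range D).erase k, ∏ l ∈ range (j + 1), r' l =
      ∏ j ∈ (range D).erase k, ∏ l ∈ range (j + 1), r l := by
    refine Finset.prod_congr rfl fun j hj => ?_
    rw [Finset.mem_erase, Finset.mem_range] at hj
    exact lmac_prod D k r r' hk hp he j hj.2 hj.1
  have hP : 0 < ∏ l ∈ range k, r l := by
    refine Finset.prod_pos fun l hl => hpos l ?_
    have := Finset.mem_range.1 hl
    omega
  have hQ : 0 < ∏ j ∈ (range D).erase k, ∏ l ∈ range (j + 1), r l := by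
    refine Finset.prod_pos fun j hj => ?_
    rw [Finset.mem_erase, Finset.mem_range] at hj
    refine Finset.prod_pos fun l hl => hpos l ?_
    have := Finset.mem_range.1 hl
    omega
  rw [h1, Finset.prod_range_succ, Finset.prod_range_succ, h0, ← mul_assoc]
  refine mul_le_mul_of_nonneg_right ?_ hQ.le
  calc (∏ l ∈ range k, r l) * r' k ≤ (∏ l ∈ range k, r l) * (3 / 4 * r k) :=
        mul_le_mul_of_nonneg_left hr hP.le
    _ = 3 / 4 * ((∏ l ∈ range k, r l) * r k) := by ring

/-- The module LMAC. -/
theorem lmac_thm (_h1 : S_LSCH) (h2 : S_LCON) (h3 : S_LUNI) (h4 : S_LGRM) (h5 : S_LSWG)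
    (h6 : S_LSWR) (h7 : S_LPAS) : S_LMAC := by
  intro D m B X s hV hI
  obtain ⟨-, hT, hrr, hmu⟩ := h7 D m B X s hV hI
  unfold macS
  generalize ht : passS D m B s = t at *
  have hLDL := (h4 D m B X t.1 t.2 hV hT.uni).2.2.2.2
  have hpot : pot D (gr D m B s.1) = pot D (gr D m B t.1) := by
    unfold pot
    refine Finset.prod_congr rfl fun k hk => Finset.prod_congr rfl fun l hl => ?_
    have := Finset.mem_range.1 hl
    have := Finset.mem_range.1 hk
    exact (hrr l (by omega)).symm
  unfold swS
  cases hb : badS D m B t with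
  | nil =>
    refine ⟨hT, Or.inl ⟨hmu, ?_⟩⟩
    intro k hk
    by_contra hlt
    have hmem : k ∈ badS D m B t := by
      unfold badS
      rw [List.mem_filter, List.mem_range]
      refine ⟨by omega, ?_⟩
      rw [decide_eq_true_eq]
      exact not_le.1 hlt
    rw [hb] at hmem
    exact List.not_mem_nil hmem
  | cons k _ =>
    have hmem : k ∈ badS D m B t := by rw [hb]; exact List.mem_cons_self
    unfold badS at hmem
    rw [List.mem_filter, List.mem_range, decide_eq_true_eq] at hmem
    obtain ⟨hkD, hlt⟩ := hmem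
    have hk : k + 1 < D := by omega
    have hsw := h5 D m B t k hk
    obtain ⟨-, hcr, -⟩ := h2 D (gr D m B (lsw D k t).1)
      (fun a b => gr D m B t.1 (tr k a) (tr k b)) hsw
    obtain ⟨e1, e2, e3, e4⟩ := h6 D (gr D m B t.1) k hLDL hk
    rw [← hcr k (by omega)] at e1 e2
    rw [← hcr (k + 1) (by omega)] at e2 e3
    have e4' : ∀ l < D, l ≠ k → l ≠ k + 1 →
        rr (gr D m B (lsw D k t).1) l = rr (gr D m B t.1) l := by
      intro l hl h h'
      rw [hcr l hl]
      exact e4 l hl h h'
    have hpk : 0 < rr (gr D m B t.1) k := hLDL.pos k (by omega)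
    have hlt' : rr (gr D m B (lsw D k t).1) k ≤ 3 / 4 * rr (gr D m B t.1) k := by
      rw [e1]
      exact hlt.le
    refine ⟨⟨?_, ?_, ?_⟩, Or.inr ?_⟩
    · exact h3.2.2 D k t hk hT.uni
    · intro l hl
      by_cases hlk : l = k
      · subst hlk
        have := hT.rb l hl
        simp only [] at *
        linarith
      · by_cases hlk1 : l = k + 1
        · subst hlk1
          exact e3.trans (hT.rb k (by omega))
        · simp only []
          rw [e4' l hl hlk hlk1]
          exact hT.rb l hl
    · intro i hi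
      simp only []
      rw [hsw i hi i hi]
      apply hT.nb
      unfold tr
      split_ifs <;> omega
    · rw [hpot]
      exact lmac_pot D k _ _ hk hLDL.pos e2 e4' hlt'

end Pool.HMS
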